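import Mathlib

namespace Pool.Agent.Results.MP_9a9f07_nt.Semiprime

open Finset ArithmeticFunction
open scoped ArithmeticFunction.Moebius

/-- sum of the positive divisors -/
def sig (n : ℕ) : ℕ := ∑ d ∈ n.divisors, d

theorem sig_p {r : ℕ} (hr : r.Prime) : sig r = r + 1 := by
  unfold sig; rw [hr.sum_divisors]

theorem phi_p {r : ℕ} (hr : r.Prime) : Nat.totient r + 1 = r := by
  rw [Nat.totient_prime hr]; have := hr.pos; omega

theorem Dsq {r : ℕ} (hr : r.Prime) : Nat.totient (r * r) + sig (r * r) = 2 * (r * r) + 1 := by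
  have h1 : Nat.totient (r ^ (1 + 1)) = r ^ 1 * (r - 1) := Nat.totient_prime_pow_succ hr 1
  have h2 : sig (r ^ 2) = 1 + r + r ^ 2 := by
    unfold sig; rw [Nat.sum_divisors_prime_pow hr]; simp [sum_range_succ]
  obtain ⟨t, rfl⟩ := Nat.exists_eq_add_of_le' hr.pos
  rw [← sq, h2, h1]; simp; ring

theorem Dpq {r s : ℕ} (hr : r.Prime) (hs : s.Prime) (h : r ≠ s) :
    Nat.totient (r * s) + r + s = r * s + 1 ∧ sig (r * s) = r * s + r + s + 1 := by
  have c := (Nat.coprime_primes hr hs).2 h
  have h1 : sig (r * s) = sig r * sig s := Nat.Coprime.sum_divisors_mul c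
  rw [h1, Nat.totient_mul c, sig_p hr, sig_p hs]
  have a := phi_p hr
  have b := phi_p hs
  constructor
  · generalize Nat.totient r = x at *
    generalize Nat.totient s = y at *
    subst a b; ring
  · ring

theorem form (m : ℕ) (hm : 0 < m) : (Nat.totient m : ℤ) + sig m =
    ∑ x ∈ m.divisorsAntidiagonal, (μ x.1 + 1) * (x.2 : ℤ) := by
  have h := (sum_eq_iff_sum_mul_moebius_eq (R := ℤ) (f := fun n => (Nat.totient n : ℤ))
    (g := fun n => (n : ℤ))).1 (fun n _ => by exact_mod_cast Nat.sum_totient n) m hm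
  have h2 : ∑ x ∈ m.divisorsAntidiagonal, (x.2 : ℤ) = sig m := by
    rw [Nat.sum_divisorsAntidiagonal' (fun _ y => (y : ℤ))]; simp [sig]
  simp only [add_mul, one_mul, sum_add_distrib, h2]
  simp only [Int.cast_id] at h
  rw [h]

theorem low (m : ℕ) (hm : 0 < m) (S : Finset (ℕ × ℕ)) (hS : ∀ x ∈ S, x.1 * x.2 = m) :
    ∑ x ∈ S, (μ x.1 + 1) * (x.2 : ℤ) ≤ (Nat.totient m : ℤ) + sig m := by
  rw [form m hm]
  apply sum_le_sum_of_subset_of_nonneg
  · intro x hx; exact Nat.mem_divisorsAntidiagonal.2 ⟨hS x hx, hm.ne'⟩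
  · intro x _ _
    have := moebius_eq_or x.1
    apply mul_nonneg (by omega) (by positivity)

theorem key (m : ℕ) (hm : 1 < m) (h : Nat.totient m + sig m ≤ 2 * m + 2) :
    m.Prime ∨ (∃ r, r.Prime ∧ m = r * r) ∨ ∃ r s, r.Prime ∧ s.Prime ∧ r < s ∧ m = r * s := by
  have h' : (Nat.totient m : ℤ) + sig m ≤ 2 * m + 2 := by exact_mod_cast h
  have two : ∀ r s, r.Prime → s.Prime → r < s → r ∣ m → s ∣ m → m = r * s := by
    intro r s hr hs hrs h1 h2
    have c := (Nat.coprime_primes hr hs).2 hrs.ne
    obtain ⟨t, ht⟩ := c.mul_dvd_of_dvd_of_dvd h1 h2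
    have ne : r * s ≠ 1 := by have := hr.two_le; have := hs.two_le; nlinarith
    have l := low m (by omega) {(1, m), (r * s, t)} (by simp [ht])
    rw [sum_pair (by simp [ne.symm])] at l
    have mu : μ (r * s) = 1 := by
      rw [isMultiplicative_moebius.map_mul_of_coprime c, moebius_apply_prime hr,
        moebius_apply_prime hs]; simp
    simp only [mu, moebius_apply_one] at l
    have t1 : t ≤ 1 := by omega
    have t0 : t ≠ 0 := by rintro rfl; omega
    have : t = 1 := by omega
    subst this; simpa using ht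
  by_cases hp : IsPrimePow m
  · obtain ⟨r, a, hr, ha, rfl⟩ := (isPrimePow_nat_iff _).1 hp
    rcases a with _ | _ | _ | a
    · omega
    · left; simpa using hr
    · right; left; exact ⟨r, hr, by ring⟩
    · exfalso
      have r2 := hr.two_le
      have p1 : r ≤ r ^ (a + 1) := Nat.le_self_pow (by omega) r
      have e : r ^ (a + 1 + 1 + 1) = r ^ 2 * r ^ (a + 1) := by ring
      have n1 : 1 ≠ r ^ 2 := by nlinarith
      have n2 : r ^ (a + 1) ≠ 1 := by omega
      have l := low (r ^ (a + 1 + 1 + 1)) (by omega) {(1, r ^ (a + 1 + 1 + 1)), (r ^ 2, r ^ (a + 1)),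
        (r ^ (a + 1 + 1 + 1), 1)} (by simp [e])
      rw [sum_insert (by simp only [mem_insert, mem_singleton, Prod.mk.injEq]; omega),
        sum_pair (by simp only [ne_eq, Prod.mk.injEq]; omega)] at l
      simp only [moebius_apply_one, moebius_apply_prime_pow hr (show 2 ≠ 0 by omega),
        moebius_apply_prime_pow hr (show a + 1 + 1 + 1 ≠ 0 by omega)] at l
      rw [if_neg (by omega), if_neg (by omega)] at l
      omega
  · right; right
    rw [isPrimePow_iff_unique_prime_dvd] at hp
    have hr := Nat.minFac_prime hm.ne'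
    by_contra hc
    apply hp
    refine ⟨m.minFac, ⟨hr, Nat.minFac_dvd m⟩, fun s hs => ?_⟩
    by_contra hne
    have : m.minFac < s := lt_of_le_of_ne (Nat.minFac_le_of_dvd hs.1.two_le hs.2) (Ne.symm hne)
    exact hc ⟨_, _, hr, hs.1, this, two _ _ hr hs.1 this (Nat.minFac_dvd m) hs.2⟩

theorem result (n : ℕ) (hn : 1 < n) (hnp : ¬ n.Prime)
    (h1 : Nat.totient (n + 12) = Nat.totient n + 12) (h2 : sig (n + 12) = sig n + 12)
    (h : ∃ r s : ℕ, r.Prime ∧ s.Prime ∧ (n = r * s ∨ n + 12 = r * s)) :
    ∃ p : ℕ, n = p * (p + 8) ∧ p.Prime ∧ (p + 2).Prime ∧ (p + 6).Prime ∧ (p + 8).Prime := by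
  have hD : Nat.totient n + sig n ≤ 2 * n + 2 := by
    obtain ⟨r, s, hr, hs, h⟩ := h
    have : Nat.totient (r * s) + sig (r * s) ≤ 2 * (r * s) + 2 := by
      by_cases e : r = s
      · subst e; have := Dsq hr; omega
      · have := Dpq hr hs e; omega
    rcases h with h | h <;> rw [← h] at this <;> omega
  rcases key n hn hD with a | ⟨p, hp, a⟩ | ⟨p, q, hp, hq, hpq, a⟩
  · exact absurd a hnp
  · exfalso
    have d := Dsq hp
    rw [← a] at d
    rcases key (n + 12) (by omega) (by omega) with b | ⟨r, hr, b⟩ | ⟨r, s, hr, hs, hrs, b⟩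
    · have := sig_p b; have := phi_p b; omega
    · have p2 := hp.two_le
      have l : p < r := by nlinarith
      have u : r ≤ 6 := by nlinarith
      interval_cases r <;> interval_cases p <;> first | omega | norm_num at hr
    · have := Dpq hr hs hrs.ne; rw [← b] at this; omega
  · have d := Dpq hp hq hpq.ne
    rw [← a] at d
    rcases key (n + 12) (by omega) (by omega) with b | ⟨r, hr, b⟩ | ⟨r, s, hr, hs, hrs, b⟩
    · have := sig_p b; have := phi_p b; omega
    · have := Dsq hr; rw [← b] at this; omega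
    · have e := Dpq hr hs hrs.ne
      rw [← b] at e
      have hsum : r + s = p + q := by omega
      have l : p < r := by
        by_contra hc
        obtain ⟨t, rfl⟩ := Nat.exists_eq_add_of_le (not_lt.1 hc)
        have : s = q + t := by omega
        subst this; nlinarith
      obtain ⟨t, rfl⟩ := Nat.exists_eq_add_of_lt l
      obtain ⟨u, rfl⟩ := Nat.exists_eq_add_of_lt hrs
      have hq' : q = p + 2 * t + u + 3 := by omega
      subst hq'
      have hk : (t + 1) * (t + u + 2) = 12 := by nlinarith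
      have t2 : t ≤ 2 := by nlinarith
      have o1 := hp.eq_two_or_odd
      have o2 := hr.eq_two_or_odd
      have p2 := hp.two_le
      interval_cases t
      · have : p = 2 := by omega
        have : u = 10 := by omega
        subst_vars; norm_num at hq
      · have : u = 3 := by omega
        subst this
        exact ⟨p, a, hp, hr, hs, hq⟩
      · have : p = 2 := by omega
        have : u = 0 := by omega
        subst_vars; norm_num at hq

end Pool.Agent.Results.MP_9a9f07_nt.Semiprime
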